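import Pool.Agent.H55.FFM.TP

/-! PV3: the valuation rings which contain a Dedekind domain. -/

set_option autoImplicit false

open IsDedekindDomain

open Pool.Agent.H55.FFM

namespace Pool.Agent.H53.FFM

theorem pf_PV3 (hPV1 : T_PV1) : T_PV3 := by
  intro B F _ _ _ _ _ O hB hO
  obtain ⟨h1, -, h3, -, -, h6⟩ := hPV1 B F
  have hinj : Function.Injective (algebraMap B F) := IsFractionRing.injective B F
  have halg : ∀ b : B, b ≠ 0 → algebraMap B F b ≠ 0 := fun b hb h =>
    hb (hinj (h.trans (map_zero _).symm))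
  -- the prime ideal
  let i : B →+* O := (algebraMap B F).codRestrict O.toSubring hB
  have hi : ∀ b, ((i b : O) : F) = algebraMap B F b := fun b => rfl
  have hkey : ∀ b : B, b ≠ 0 →
      (b ∈ (IsLocalRing.maximalIdeal O).comap i ↔ (algebraMap B F b)⁻¹ ∉ O) := by
    intro b hb
    rw [Ideal.mem_comap, IsLocalRing.mem_maximalIdeal, mem_nonunits_iff]
    refine not_congr ?_
    constructor
    · rintro ⟨u, hu⟩
      have h2 : algebraMap B F b * ((u⁻¹ : Oˣ) : O).1 = 1 := by
        rw [← hi b, ← hu]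
        have h4 : (u : O) * ((u⁻¹ : Oˣ) : O) = 1 := u.mul_inv
        exact congrArg Subtype.val h4
      rw [inv_eq_of_mul_eq_one_right h2]
      exact ((u⁻¹ : Oˣ) : O).2
    · intro h
      refine IsUnit.of_mul_eq_one ⟨_, h⟩ (Subtype.ext ?_)
      show ((i b : O) : F) * (algebraMap B F b)⁻¹ = 1
      rw [hi]
      exact mul_inv_cancel₀ (halg b hb)
  have hne : (IsLocalRing.maximalIdeal O).comap i ≠ ⊥ := by
    intro hbot
    obtain ⟨a, ha⟩ := hO
    obtain ⟨x, y, hy, rfl⟩ := IsFractionRing.div_surjective (A := B) a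
    have hy0 : y ≠ 0 := nonZeroDivisors.ne_zero hy
    apply ha
    rw [div_eq_mul_inv]
    refine O.mul_mem _ _ (hB x) ?_
    by_contra hcon
    have h2 := (hkey y hy0).2 hcon
    rw [hbot, Ideal.mem_bot] at h2
    exact hy0 h2
  let P : HeightOneSpectrum B := ⟨(IsLocalRing.maximalIdeal O).comap i, inferInstance, hne⟩
  refine ⟨P, hkey, ?_⟩
  intro a ha
  have hinvO : ∀ c : B, c ∉ P.asIdeal → c ≠ 0 ∧ (algebraMap B F c)⁻¹ ∈ O := by
    intro c hc
    have hc0 : c ≠ 0 := fun h => hc (h ▸ P.asIdeal.zero_mem)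
    refine ⟨hc0, ?_⟩
    by_contra hcon
    exact hc ((hkey c hc0).2 hcon)
  constructor
  · intro haO
    by_contra hcon
    push Not at hcon
    have hv1 : vP P (1 : F) = 0 := by
      have h2 := h1 P 1 1 one_ne_zero one_ne_zero
      rw [mul_one] at h2
      omega
    have hvi : 0 < vP P a⁻¹ := by
      have h2 := h1 P a a⁻¹ ha (inv_ne_zero ha)
      rw [mul_inv_cancel₀ ha, hv1] at h2
      omega
    obtain ⟨b, c, hc, hbc⟩ := h6 P a⁻¹ (inv_ne_zero ha) hvi.le
    obtain ⟨hc0, hcO⟩ := hinvO c hc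
    have hb0 : b ≠ 0 := by
      rintro rfl
      rw [map_zero] at hbc
      exact mul_ne_zero (inv_ne_zero ha) (halg c hc0) hbc
    have h2 := h1 P a⁻¹ (algebraMap B F c) (inv_ne_zero ha) (halg c hc0)
    rw [hbc] at h2
    have h4 := (h3 P c hc0).1
    have hbP : b ∈ P.asIdeal := (h3 P b hb0).2.1 (by omega)
    apply (hkey b hb0).1 hbP
    rw [← hbc, mul_inv, inv_inv]
    exact O.mul_mem _ _ haO hcO
  · intro h
    obtain ⟨b, c, hc, hbc⟩ := h6 P a ha h
    obtain ⟨hc0, hcO⟩ := hinvO c hc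
    have h2 : a = algebraMap B F b * (algebraMap B F c)⁻¹ := by
      rw [← hbc, mul_assoc, mul_inv_cancel₀ (halg c hc0), mul_one]
    rw [h2]
    exact O.mul_mem _ _ (hB b) hcO

end Pool.Agent.H53.FFM
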